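import Pool.Agent.H79.PRK.S1

/-!
# PRK, module HENK: Hensel's lemma modulo `P^m`
-/

set_option autoImplicit false

namespace Pool.PRK

open Polynomial Pool.HYP Pool.TOW Pool.AVS Pool.T1 IsDedekindDomain

namespace HENKaux

variable {R : Type} [CommRing R]

private theorem root_step (P : Ideal R) (hP : P.IsMaximal) (f : R[X]) (c : R)
    (h0 : f.eval c ∈ P) (h1 : f.derivative.eval c ∉ P) (m : ℕ) :
    ∃ c' : R, c' - c ∈ P ∧ f.eval c' ∈ P ^ (m + 1) := by
  induction m with
  | zero => exact ⟨c, by rw [sub_self]; exact P.zero_mem, by simpa using h0⟩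
  | succ m ih =>
    obtain ⟨c', hc, hf⟩ := ih
    have hd : f.derivative.eval c' ∉ P := by
      intro h
      apply h1
      have h2 : f.derivative.eval c' - f.derivative.eval c ∈ P :=
        P.mem_of_dvd (Polynomial.sub_dvd_eval_sub c' c f.derivative) hc
      have h3 := P.sub_mem h h2
      simpa using h3
    obtain ⟨u, hu⟩ := hP.exists_inv hd
    obtain ⟨k, hk⟩ := Polynomial.binomExpansion f c' (-(u * f.eval c'))
    have hfP : f.eval c' ∈ P := by
      have := Ideal.pow_le_pow_right (I := P) (Nat.succ_le_succ (Nat.zero_le m)) hf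
      simpa using this
    refine ⟨c' + -(u * f.eval c'), ?_, ?_⟩
    · have h2 : c' + -(u * f.eval c') - c = (c' - c) - u * f.eval c' := by ring
      rw [h2]
      exact P.sub_mem hc (P.mul_mem_left _ hfP)
    · rw [hk]
      have h2 : f.eval c' + f.derivative.eval c' * -(u * f.eval c') + k * (-(u * f.eval c')) ^ 2 =
          f.eval c' * (1 - u * f.derivative.eval c') + k * u ^ 2 * (f.eval c' * f.eval c') := by
        ring
      rw [h2]
      have h3 : (1 - u * f.derivative.eval c') ∈ P := by
        rw [← neg_sub]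
        obtain ⟨i, hi, e⟩ := hu
        have h4 : u * f.derivative.eval c' - 1 = - i := by rw [← e]; ring
        rw [h4, neg_neg]
        exact hi
      refine Ideal.add_mem _ ?_ (Ideal.mul_mem_left _ _ ?_)
      · rw [pow_succ P (m + 1)]
        exact Ideal.mul_mem_mul hf h3
      · rw [pow_succ P (m + 1)]
        exact Ideal.mul_mem_mul hf hfP

end HENKaux

open HENKaux in
/-- HENK. -/
theorem henk : HENKStmt := by
  intro R _ _ P c γ f g hg hf hγ hz m
  have hPm : P.asIdeal.IsMaximal := P.isMaximal
  haveI hPp : P.asIdeal.IsPrime := P.isPrime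
  haveI : Nontrivial (R ⧸ P.asIdeal) := Ideal.Quotient.nontrivial_iff.mpr hPp.ne_top
  obtain ⟨hγm, hγd, hγi⟩ := hγ
  set φ := Ideal.Quotient.mk P.asIdeal with hφ
  have hmd : f.map φ = (X - C (φ c)) * γ.map φ := by
    have h1 : (f - (X - C c) * γ).map φ = 0 := by
      ext i
      rw [coeff_map, coeff_zero]
      exact Ideal.Quotient.eq_zero_iff_mem.mpr (hz i)
    rw [Polynomial.map_sub, Polynomial.map_mul, Polynomial.map_sub, map_X, map_C, sub_eq_zero] at h1
    exact h1
  have hγc : (γ.map φ).eval (φ c) ≠ 0 := by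
    intro h
    have hd := Polynomial.degree_eq_one_of_irreducible_of_root hγi h
    rw [hγm.degree_map, Polynomial.degree_eq_natDegree hγm.ne_zero, hγd] at hd
    have : 2 * g = 1 := by exact_mod_cast hd
    omega
  have h0 : f.eval c ∈ P.asIdeal := by
    apply Ideal.Quotient.eq_zero_iff_mem.mp
    have h1 : φ (f.eval c) = (f.map φ).eval (φ c) := by
      rw [eval_map, eval₂_hom]
    change φ (f.eval c) = 0
    rw [h1, hmd, eval_mul, eval_sub, eval_X, eval_C, sub_self, zero_mul]
  have h1 : f.derivative.eval c ∉ P.asIdeal := by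
    intro h
    apply hγc
    have h2 : φ (f.derivative.eval c) = ((f.map φ).derivative).eval (φ c) := by
      rw [derivative_map, eval_map, eval₂_hom]
    have h3 : φ (f.derivative.eval c) = 0 := Ideal.Quotient.eq_zero_iff_mem.mpr h
    rw [h2, hmd, derivative_mul, derivative_sub, derivative_X, derivative_C, sub_zero, one_mul,
      eval_add, eval_mul, eval_sub, eval_X, eval_C, sub_self, zero_mul, add_zero] at h3
    exact h3
  obtain ⟨c', hc, hfc⟩ := root_step P.asIdeal hPm f c h0 h1 m
  have hfd : f.natDegree = 2 * g + 1 := by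
    have h2 : (f.map φ).natDegree = f.natDegree := hf.natDegree_map φ
    rw [← h2, hmd, Monic.natDegree_mul (monic_X_sub_C _) (hγm.map φ), natDegree_X_sub_C,
      hγm.natDegree_map, hγd, add_comm]
  have hXm : (X - C c' : R[X]).Monic := monic_X_sub_C c'
  have hdiv : (X - C c') * (f /ₘ (X - C c')) + C (f.eval c') = f := by
    have := Polynomial.modByMonic_add_div f (X - C c')
    rw [Polynomial.modByMonic_X_sub_C_eq_C_eval] at this
    rw [add_comm]
    exact this
  have hqd : (f /ₘ (X - C c')).natDegree = 2 * g := by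
    rw [natDegree_divByMonic f hXm, hfd, natDegree_X_sub_C]
    rfl
  have hqm : (f /ₘ (X - C c')).Monic := by
    have h2 : (X - C c').degree ≤ f.degree := by
      rw [degree_X_sub_C, degree_eq_natDegree hf.ne_zero, hfd]
      exact_mod_cast Nat.succ_le_succ (Nat.zero_le _)
    rw [Monic, leadingCoeff_divByMonic_of_monic hXm h2]
    exact hf
  have hcc : φ c' = φ c := by
    apply Ideal.Quotient.eq.mpr
    exact hc
  refine ⟨c', f /ₘ (X - C c'), hqm, hqd, hc, ?_, ?_⟩
  · have h2 : (X - C (φ c)) * (f /ₘ (X - C c')).map φ = (X - C (φ c)) * γ.map φ := by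
      have h3 := congrArg (Polynomial.map φ) hdiv
      rw [Polynomial.map_add, Polynomial.map_mul, Polynomial.map_sub, map_X, map_C, map_C, hcc] at h3
      have h4 : φ (f.eval c') = 0 := by
        apply Ideal.Quotient.eq_zero_iff_mem.mpr
        have := Ideal.pow_le_pow_right (I := P.asIdeal) (Nat.succ_le_succ (Nat.zero_le m)) hfc
        simpa using this
      rw [h4, C_0, add_zero, hmd] at h3
      exact h3
    have h3 : (f /ₘ (X - C c')).map φ = γ.map φ :=
      mul_left_cancel₀ (X_sub_C_ne_zero _) h2
    intro i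
    rw [coeff_sub]
    have h4 := congrArg (fun p => p.coeff i) h3
    simp only [coeff_map] at h4
    exact Ideal.Quotient.eq.mp h4
  · intro i
    have h2 : f - (X - C c') * (f /ₘ (X - C c')) = C (f.eval c') := by
      rw [sub_eq_iff_eq_add']
      exact hdiv.symm
    rw [h2, coeff_C]
    split_ifs
    · exact Ideal.pow_le_pow_right (Nat.le_succ m) hfc
    · exact Ideal.zero_mem _

end Pool.PRK
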