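import Pool.Agent.H72.PRK.S2

/-!
# PRK, module ONLK: the integral closure of `F[t]` lies in all valuation rings but one
-/

set_option autoImplicit false

namespace Pool.PRK

open Polynomial Pool.HYP Pool.TOW Pool.AVS Pool.T1 IsDedekindDomain

/-- ONLK. -/
theorem onlk : ONLKStmt := by
  intro F _ _ _ K _ _ _ _ O hO V hV
  apply hO.2
  intro hX
  obtain ⟨a, ha⟩ := hV
  apply ha
  set φ : F[X] →+* K := (algebraMap (RatFunc F) K).comp (algebraMap F[X] (RatFunc F)) with hφ
  have hC : ∀ c : F, φ (C c) ∈ V := by
    intro c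
    by_cases hc : c = 0
    · rw [hc, C_0, map_zero]; exact V.zero_mem
    · rcases V.mem_or_inv_mem (φ (C c)) with h | h
      · exact h
      · haveI := Fintype.ofFinite F
        have h1 : c ^ (Fintype.card F - 1) = 1 := FiniteField.pow_card_sub_one_eq_one c hc
        have hcard : 1 ≤ Fintype.card F - 1 := by
          have := Fintype.one_lt_card (α := F)
          omega
        obtain ⟨n, hn⟩ : ∃ n, Fintype.card F - 1 = n + 1 := ⟨_, (Nat.sub_add_cancel hcard).symm⟩
        rw [hn] at h1
        have h2 : (φ (C c)) ^ (n + 1) = 1 := by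
          rw [← map_pow, ← C_pow, h1, C_1, map_one]
        have h0 : φ (C c) ≠ 0 := by
          intro h3
          rw [h3, zero_pow (Nat.succ_ne_zero n)] at h2
          exact zero_ne_one h2
        have h3 : φ (C c) = ((φ (C c))⁻¹) ^ n := by
          rw [inv_pow]
          rw [pow_succ] at h2
          exact eq_inv_of_mul_eq_one_right h2
        rw [h3]
        exact V.toSubring.pow_mem h n
  have hXV : φ X ∈ V := by
    have h1 : φ X = algebraMap (RatFunc F) K RatFunc.X := by
      rw [hφ, RingHom.comp_apply, RatFunc.algebraMap_X]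
    rw [h1]; exact hX
  have hφV : ∀ p : F[X], φ p ∈ V := by
    intro p
    induction p using Polynomial.induction_on' with
    | add p q hp hq => rw [map_add]; exact V.add_mem _ _ hp hq
    | monomial n c =>
      rw [← C_mul_X_pow_eq_monomial, map_mul, map_pow]
      exact V.mul_mem _ _ (hC c) (V.toSubring.pow_mem hXV n)
  let ψ : F[X] →+* V := φ.codRestrict V.toSubring hφV
  have hψ : (algebraMap V K).comp ψ = φ := by
    ext x <;> rfl
  have hint : φ.IsIntegralElem (a : K) := a.2
  obtain ⟨p, hp, hp0⟩ := hint
  have h1 : IsIntegral V (a : K) := by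
    refine ⟨p.map ψ, hp.map ψ, ?_⟩
    rw [eval₂_map, hψ]
    exact hp0
  obtain ⟨y, hy⟩ := (IsIntegrallyClosed.isIntegral_iff (R := V) (K := K)).mp h1
  have h2 : algebraMap (RR F K) K a = (y : K) := by
    rw [algMap_RR]; exact hy.symm
  rw [h2]
  exact y.2

end Pool.PRK
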