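import Pool.Agent.H5.PRK.S3

/-!
# PRK, module QPRK: the prime of degree `2 g` above `P`
-/

set_option autoImplicit false

namespace Pool.PRK

open Polynomial Pool.HYP Pool.TOW Pool.AVS Pool.T1 IsDedekindDomain

namespace QPRKaux

variable {R : Type} [CommRing R]

/-- The polynomials divisible by `h` modulo `P`. -/
private noncomputable def II (P : Ideal R) (h : (R ⧸ P)[X]) : Ideal R[X] :=
  Ideal.comap (Polynomial.mapRingHom (Ideal.Quotient.mk P)) (Ideal.span {h})

private theorem mem_II (P : Ideal R) (h : (R ⧸ P)[X]) (p : R[X]) :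
    p ∈ II P h ↔ h ∣ p.map (Ideal.Quotient.mk P) := by
  rw [II, Ideal.mem_comap, coe_mapRingHom, Ideal.mem_span_singleton]

private theorem mem_I0 (P : Ideal R) (p : R[X]) :
    p ∈ P.map (C : R →+* R[X]) ↔ p.map (Ideal.Quotient.mk P) = 0 := by
  rw [Ideal.mem_map_C_iff]
  constructor
  · intro h
    ext i
    rw [coeff_map, coeff_zero]
    exact Ideal.Quotient.eq_zero_iff_mem.mpr (h i)
  · intro h i
    have := congrArg (fun s => s.coeff i) h
    simp only [coeff_map, coeff_zero] at this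
    exact Ideal.Quotient.eq_zero_iff_mem.mp this

private theorem val_sq (P : HeightOneSpectrum R) [IsDedekindDomain R] (f : R[X]) (c : R)
    (hd : f.derivative.eval c ∉ P.asIdeal) :
    ∃ x : R, x - c ∈ P.asIdeal ∧ f.eval x ∉ P.asIdeal ^ 2 := by
  obtain ⟨ϖ, h1, h2⟩ := Ideal.exists_mem_pow_notMem_pow_succ P.asIdeal P.ne_bot P.isPrime.ne_top 1
  rw [pow_one] at h1
  by_contra hcon
  push Not at hcon
  have e1 := hcon c (by rw [sub_self]; exact Ideal.zero_mem _)
  have e2 := hcon (c + ϖ) (by rw [add_sub_cancel_left]; exact h1)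
  obtain ⟨k, hk⟩ := Polynomial.binomExpansion f c ϖ
  have hϖ2 : ϖ ^ 2 ∈ P.asIdeal ^ 2 := Ideal.pow_mem_pow h1 2
  have e3 : f.derivative.eval c * ϖ ∈ P.asIdeal ^ 2 := by
    have h4 : f.derivative.eval c * ϖ = f.eval (c + ϖ) - f.eval c - k * ϖ ^ 2 := by
      rw [hk]; ring
    rw [h4]
    exact Ideal.sub_mem _ (Ideal.sub_mem _ e2 e1) (Ideal.mul_mem_left _ _ hϖ2)
  obtain ⟨u, i, hi, hu⟩ := P.isMaximal.exists_inv hd
  apply h2
  have h5 : ϖ = u * (f.derivative.eval c * ϖ) + i * ϖ := by linear_combination (-ϖ) * hu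
  rw [h5]
  refine Ideal.add_mem _ (Ideal.mul_mem_left _ _ e3) ?_
  rw [pow_succ, pow_one]
  exact Ideal.mul_mem_mul hi h1

end QPRKaux

open QPRKaux in
/-- QPRK. -/
theorem qprk : QPRKStmt := by
  intro R O _ _ _ _ _ _ _ g P c γ f φ hg hfin hφ hker hnorm hγ hz
  obtain ⟨hγm, hγd, hγi⟩ := hγ
  have hPm : P.asIdeal.IsMaximal := P.isMaximal
  have hPp : P.asIdeal.IsPrime := P.isPrime
  let _ : Field (R ⧸ P.asIdeal) := Ideal.Quotient.field _
  set π := Ideal.Quotient.mk P.asIdeal with hπ
  have hπs : Function.Surjective π := Ideal.Quotient.mk_surjective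
  have hmd : f.map π = (X - C (π c)) * γ.map π := by
    have h1 : (f - (X - C c) * γ).map π = 0 := by
      ext i
      rw [coeff_map, coeff_zero]
      exact Ideal.Quotient.eq_zero_iff_mem.mpr (hz i)
    rw [Polynomial.map_sub, Polynomial.map_mul, Polynomial.map_sub, map_X, map_C, sub_eq_zero] at h1
    exact h1
  have hγc : (γ.map π).eval (π c) ≠ 0 := by
    intro h
    have hd := Polynomial.degree_eq_one_of_irreducible_of_root hγi h
    rw [hγm.degree_map, Polynomial.degree_eq_natDegree hγm.ne_zero, hγd] at hd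
    have : 2 * g = 1 := by exact_mod_cast hd
    omega
  have hfc : f.derivative.eval c ∉ P.asIdeal := by
    intro h
    apply hγc
    have h2 : π (f.derivative.eval c) = ((f.map π).derivative).eval (π c) := by
      rw [derivative_map, eval_map, eval₂_hom]
    have h3 : π (f.derivative.eval c) = 0 := Ideal.Quotient.eq_zero_iff_mem.mpr h
    rw [h2, hmd, derivative_mul, derivative_sub, derivative_X, derivative_C, sub_zero, one_mul,
      eval_add, eval_mul, eval_sub, eval_X, eval_C, sub_self, zero_mul, add_zero] at h3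
    exact h3
  -- the ideals of the polynomial ring
  set I1 : Ideal R[X] := II P.asIdeal (X - C (π c)) with hI1
  set I2 : Ideal R[X] := II P.asIdeal (γ.map π) with hI2
  set I0 : Ideal R[X] := P.asIdeal.map (C : R →+* R[X]) with hI0
  have h01 : I0 ≤ I1 := by
    intro p hp
    rw [hI1, mem_II, (mem_I0 _ p).mp hp]
    exact dvd_zero _
  have h02 : I0 ≤ I2 := by
    intro p hp
    rw [hI2, mem_II, (mem_I0 _ p).mp hp]
    exact dvd_zero _
  have hf1 : f ∈ I1 := by
    rw [hI1, mem_II]
    exact hmd ▸ Dvd.intro _ rfl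
  have hf2 : f ∈ I2 := by
    rw [hI2, mem_II]
    exact hmd ▸ Dvd.intro_left _ rfl
  let ψ : R[X] →+* O := (φ : R[X] →+* O)
  have hψs : Function.Surjective ψ := hφ
  have hkerle : ∀ I : Ideal R[X], f ∈ I → RingHom.ker ψ ≤ I := by
    intro I hI p hp
    rw [RingHom.mem_ker] at hp
    exact Ideal.mem_of_dvd I ((hker p).mp hp) hI
  have hmem : ∀ I : Ideal R[X], f ∈ I → ∀ p, ψ p ∈ I.map ψ → p ∈ I := by
    intro I hI p hp
    obtain ⟨q, hq, hqp⟩ := (Ideal.mem_map_iff_of_surjective ψ hψs).mp hp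
    have h1 : p - q ∈ RingHom.ker ψ := by
      rw [RingHom.mem_ker, map_sub, hqp, sub_self]
    have h2 := I.add_mem (hkerle I hI h1) hq
    simpa using h2
  have hJ : P.asIdeal.map (algebraMap R O) = I0.map ψ := by
    rw [hI0, Ideal.map_map]
    have h1 : ψ.comp (C : R →+* R[X]) = algebraMap R O := by
      ext r
      change φ (C r) = algebraMap R O r
      rw [← Polynomial.algebraMap_eq]
      exact φ.commutes r
    rw [h1]
  -- the product of the two ideals
  have h12 : (I1 * I2).map ψ = I0.map ψ := by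
    apply le_antisymm
    · rw [Ideal.map_le_iff_le_comap, Ideal.mul_le]
      intro p hp q hq
      rw [hI1, mem_II] at hp
      rw [hI2, mem_II] at hq
      obtain ⟨a, ha⟩ := hp
      obtain ⟨b, hb⟩ := hq
      obtain ⟨z, hz'⟩ := Polynomial.map_surjective π hπs (a * b)
      rw [Ideal.mem_comap]
      have h1 : p * q - f * z ∈ I0 := by
        rw [hI0, mem_I0, Polynomial.map_sub, Polynomial.map_mul, Polynomial.map_mul, ha, hb, hmd,
          hz']
        ring
      have h2 : ψ (p * q) = ψ (p * q - f * z) := by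
        have h3 : ψ f = 0 := (hker f).mpr dvd_rfl
        rw [map_sub, map_mul ψ f z, h3, zero_mul, sub_zero]
      rw [h2]
      exact Ideal.mem_map_of_mem ψ h1
    · apply Ideal.map_mono
      rw [hI0, Ideal.map_le_iff_le_comap]
      intro r hr
      rw [Ideal.mem_comap]
      have hcop : IsCoprime (X - C (π c)) (γ.map π) := by
        rw [(irreducible_X_sub_C (π c)).coprime_iff_not_dvd, dvd_iff_isRoot]
        exact hγc
      obtain ⟨ub, vb, huv⟩ := hcop
      obtain ⟨u, hu⟩ := Polynomial.map_surjective π hπs ub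
      obtain ⟨v, hv⟩ := Polynomial.map_surjective π hπs vb
      have hw : 1 - (u * (X - C c) + v * γ) ∈ I0 := by
        rw [hI0, mem_I0, Polynomial.map_sub, Polynomial.map_add, Polynomial.map_mul,
          Polynomial.map_mul, Polynomial.map_sub, map_X, map_C, Polynomial.map_one, hu, hv, huv,
          sub_self]
      have hC0 : (C r : R[X]) ∈ I0 := Ideal.mem_map_of_mem _ hr
      have hX1 : (X - C c : R[X]) ∈ I1 := by
        rw [hI1, mem_II, Polynomial.map_sub, map_X, map_C]
      have hγ2 : γ ∈ I2 := by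
        rw [hI2, mem_II]
      have h5 : (C r : R[X]) = u * ((X - C c) * C r) + v * (C r * γ) +
          C r * (1 - (u * (X - C c) + v * γ)) := by ring
      rw [h5]
      exact Ideal.add_mem _ (Ideal.add_mem _
        (Ideal.mul_mem_left _ _ (Ideal.mul_mem_mul hX1 (h02 hC0)))
        (Ideal.mul_mem_left _ _ (Ideal.mul_mem_mul (h01 hC0) hγ2)))
        (Ideal.mul_mem_mul (h01 hC0) (h02 hw))
  have hprod : I1.map ψ * I2.map ψ = P.asIdeal.map (algebraMap R O) := by
    rw [← Ideal.map_mul, h12, hJ]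
  have hJ0 : P.asIdeal.map (algebraMap R O) ≠ ⊥ := by
    rw [Ne, Ideal.map_eq_bot_iff_of_injective (FaithfulSMul.algebraMap_injective R O)]
    exact P.ne_bot
  -- `q` is prime
  have hI2p : I2.IsPrime := by
    have h1 : (Ideal.span {γ.map π}).IsPrime := by
      rw [Ideal.span_singleton_prime (hγm.map π).ne_zero]
      exact hγi.prime
    exact Ideal.IsPrime.comap _
  have hqp : (I2.map ψ).IsPrime := Ideal.map_isPrime_of_surjective hψs (hkerle I2 hf2)
  have hq0 : I2.map ψ ≠ ⊥ := by
    intro h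
    rw [h, Ideal.mul_bot] at hprod
    exact hJ0 hprod.symm
  refine ⟨I2.map ψ, Ideal.prime_of_isPrime hq0 hqp, ?_, ?_⟩
  · rw [← hprod]
    exact Ideal.mul_le_right
  -- the norms
  have hP1 : Prime P.asIdeal := Ideal.prime_of_isPrime P.ne_bot P.isPrime
  have h1 : Ideal.relNorm R (I1.map ψ) * Ideal.relNorm R (I2.map ψ) =
      P.asIdeal ^ (2 * g + 1) := by
    rw [← map_mul, hprod, Ideal.relNorm_algebraMap, hfin]
  obtain ⟨s, hs3, hs⟩ := (dvd_prime_pow hP1 (2 * g + 1)).mp (Dvd.intro _ h1)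
  obtain ⟨t, ht3, ht⟩ := (dvd_prime_pow hP1 (2 * g + 1)).mp (Dvd.intro_left _ h1)
  rw [associated_iff_eq] at hs ht
  rw [hs, ht, ← pow_add] at h1
  have hst : s + t = 2 * g + 1 := by
    exact (Ideal.pow_right_strictAnti P.asIdeal hP1.ne_zero (fun h7 =>
      hP1.not_isUnit (Ideal.isUnit_iff.mpr h7))).injective h1
  have hs1 : s ≤ 1 := by
    by_contra hs2
    push Not at hs2
    obtain ⟨x, hx1, hx2⟩ := val_sq P f c hfc
    apply hx2
    have hxq : φ (C x - X) ∈ I1.map ψ := by
      refine Ideal.mem_map_of_mem ψ ?_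
      rw [hI1, mem_II, Polynomial.map_sub, map_X, map_C]
      have h6 : π x = π c := Ideal.Quotient.eq.mpr hx1
      rw [h6]
      exact (dvd_sub_comm).mp dvd_rfl
    have h4 : Algebra.intNorm R O (φ (C x - X)) ∈ Ideal.relNorm R (I1.map ψ) :=
      Ideal.intNorm_mem_spanNorm R hxq
    rw [hs, hnorm] at h4
    exact Ideal.pow_le_pow_right hs2 h4
  have hs0 : s ≠ 0 := by
    rintro rfl
    rw [pow_zero, Ideal.one_eq_top] at hs
    have h6 := Ideal.relNorm_le_comap R (I1.map ψ)
    rw [hs, top_le_iff, Ideal.eq_top_iff_one, Ideal.mem_comap, map_one] at h6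
    have h7 : (1 : R[X]) ∈ I1 := hmem I1 hf1 1 (by rw [map_one]; exact h6)
    rw [hI1, mem_II, Polynomial.map_one] at h7
    exact (not_isUnit_X_sub_C (π c)) (isUnit_of_dvd_one h7)
  have ht2 : t = 2 * g := by omega
  rw [ht, ht2]

end Pool.PRK
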